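import Mathlib

/-! `TCF_n(v₀,v₁) ⊄ PSD_n` for every `n ≥ 6`. -/

namespace Pool.Agent.Results.MP_db83b6_pr.Spindle

open MeasureTheory Finset

/-- pairs `i < j` -/
abbrev E (n : ℕ) : Type := {p : Fin n × Fin n // p.1 < p.2}

/-- the polytope of tail correlation functions -/
def TCF (n : ℕ) : Set (E n → ℝ) :=
  {χ | ∃ (Ω : Type) (_ : MeasurableSpace Ω) (P : Measure Ω) (_ : IsProbabilityMeasure P)
    (A : Fin n → Set Ω), (∀ i, MeasurableSet (A i)) ∧ (∀ i, P.real (A i) = 1 / n) ∧
      ∀ e : E n, χ e = n * P.real (A e.1.1 ∩ A e.1.2)}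

/-- `⟨a, x⟩ ≤ β` is a facet-defining inequality of `TCF_n`: it is valid and its face has
codimension one -/
def IsFacet (n : ℕ) (a : E n → ℝ) (β : ℝ) : Prop :=
  (∀ y ∈ TCF n, a ⬝ᵥ y ≤ β) ∧
  Module.finrank ℝ (vectorSpan ℝ {y | y ∈ TCF n ∧ a ⬝ᵥ y = β}) + 1 =
    Module.finrank ℝ (vectorSpan ℝ (TCF n))

/-- `TCF_n(v₀,v₁)`: cut out by the facets containing `v₀ = 0` or `v₁ = (1,…,1)` -/
def Spindle (n : ℕ) : Set (E n → ℝ) :=
  {x | ∀ a β, IsFacet n a β → (a ⬝ᵥ (fun _ => 0) = β ∨ a ⬝ᵥ (fun _ => 1) = β) → a ⬝ᵥ x ≤ β}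

/-- the symmetric matrix `X(x)` -/
def X {n : ℕ} (x : E n → ℝ) : Matrix (Fin n) (Fin n) ℝ := fun i j =>
  if h : i < j then x ⟨(i, j), h⟩ else if h : j < i then x ⟨(j, i), h⟩ else 1

/-- `PSD_n` -/
def PSD (n : ℕ) : Set (E n → ℝ) := {x | (X x).PosSemidef}

lemma mem_TCF {n : ℕ} (hn : 0 < n) (A : Fin n → Finset (Fin n × Fin n)) (hA : ∀ i, (A i).card = n)
    (χ : E n → ℝ) (hχ : ∀ e : E n, χ e = ((A e.1.1 ∩ A e.1.2).card : ℝ) / n) : χ ∈ TCF n := by
  have hn' : (n : ℝ) ≠ 0 := by positivity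
  let P : Measure (Fin n × Fin n) := ((n : ENNReal) ^ 2)⁻¹ • Measure.count
  have hP : ∀ s : Finset (Fin n × Fin n), P.real s = (s.card : ℝ) / n ^ 2 := by
    intro s
    simp only [P, measureReal_def, Measure.smul_apply, Measure.count_apply_finset, smul_eq_mul,
      ENNReal.toReal_mul, ENNReal.toReal_inv, ENNReal.toReal_pow, ENNReal.toReal_natCast]
    ring
  refine ⟨Fin n × Fin n, inferInstance, P, ⟨?_⟩, fun i => A i, fun i => (A i).measurableSet,
    fun i => ?_, fun e => ?_⟩
  · simp only [P, Measure.smul_apply, Measure.count_univ, smul_eq_mul]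
    rw [ENat.card_eq_coe_fintype_card]
    simp only [Fintype.card_prod, Fintype.card_fin, sq]
    push_cast
    exact ENNReal.inv_mul_cancel (by simp; omega) (by finiteness)
  · rw [hP, hA]; field_simp
  · rw [← Finset.coe_inter, hP, hχ]; field_simp

def row {n : ℕ} (i : Fin n) : Finset (Fin n × Fin n) := {i} ×ˢ univ

lemma card_row {n : ℕ} (i : Fin n) : (row i).card = n := by simp [row]

lemma single_mem {n : ℕ} (e : E n) : (Pi.single e 1 : E n → ℝ) ∈ TCF n := by
  obtain ⟨⟨i, j⟩, hij⟩ := e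
  have hn : 0 < n := i.pos
  refine mem_TCF hn (fun k => row (if k = j then i else k)) (fun _ => card_row _) _ ?_
  rintro ⟨⟨k, l⟩, hkl⟩
  have hn' : (n : ℝ) ≠ 0 := by positivity
  dsimp only at hij hkl ⊢
  by_cases h : k = i ∧ l = j
  · obtain ⟨rfl, rfl⟩ := h
    simp [hij.ne, card_row, hn']
  · rw [Pi.single_eq_of_ne (by simpa using h)]
    have : (if k = j then i else k) ≠ (if l = j then i else l) := by
      split_ifs <;> omega
    have h2 : row (if k = j then i else k) ∩ row (if l = j then i else l) = ∅ := by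
      rw [← disjoint_iff_inter_eq_empty]
      exact disjoint_product.2 (Or.inl (disjoint_singleton.2 this))
    simp [h2]

noncomputable def x0 (m : ℕ) (e : E (m + 1)) : ℝ := if e.1.2 = Fin.last m then 1 / 2 else 0

lemma near_mem (m : ℕ) : (fun e => 1 + 2 / (m + 1 : ℝ) * (x0 m e - 1)) ∈ TCF (m + 1) := by
  set L := Fin.last m
  refine mem_TCF (by omega)
    (fun k => if k = L then row L else insert (k, k) ((row L).erase (L, k))) (fun k => ?_) _ ?_
  · split_ifs with h
    · exact card_row _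
    · rw [card_insert_of_notMem (by simp [row, h, Ne.symm h]), card_erase_of_mem (by simp [row]), card_row]
      simp
  rintro ⟨⟨k, l⟩, hkl⟩
  dsimp only at hkl ⊢
  have hk : k ≠ L := (hkl.trans_le (Fin.le_last l)).ne
  have hm : 1 ≤ m := by have := l.2; have : k.1 < l.1 := hkl; omega
  rw [if_neg hk]
  unfold x0
  dsimp only
  split_ifs with h
  · have : insert (k, k) ((row L).erase (L, k)) ∩ row L = (row L).erase (L, k) := by
      ext ⟨a, b⟩; simp [row]; grind
    rw [this, card_erase_of_mem (by simp [row]), card_row]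
    push_cast; field_simp; ring
  · have : insert (k, k) ((row L).erase (L, k)) ∩ insert (l, l) ((row L).erase (L, l)) =
        ((row L).erase (L, k)).erase (L, l) := by
      have := hkl.ne
      ext ⟨a, b⟩; simp [row]; grind
    rw [this, card_erase_of_mem (by simp [row, hkl.ne']), card_erase_of_mem (by simp [row]),
      card_row, Nat.add_sub_cancel, Nat.cast_sub hm]
    push_cast; field_simp; ring

lemma X_x0 (m : ℕ) (i j : Fin (m + 1)) : X (x0 m) i j =
    if i = j then 1 else if i = Fin.last m ∨ j = Fin.last m then 1 / 2 else 0 := by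
  unfold X x0
  rcases lt_trichotomy i j with h | h | h
  · have := (h.trans_le (Fin.le_last j)).ne
    simp [h, h.ne, this]
  · simp [h]
  · have := (h.trans_le (Fin.le_last i)).ne
    simp [h, h.ne', not_lt.2 h.le, this]

theorem result (n : ℕ) (hn : 6 ≤ n) : ¬ Spindle n ⊆ PSD n := by
  obtain ⟨m, rfl⟩ : ∃ m, n = m + 1 := ⟨n - 1, by omega⟩
  intro h
  have hx : x0 m ∈ Spindle (m + 1) := by
    rintro a β ⟨hv, -⟩ (h0 | h1)
    · have hβ : β = 0 := by rw [← h0]; simp [dotProduct]
      subst hβ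
      refine sum_nonpos fun e _ => mul_nonpos_of_nonpos_of_nonneg ?_ ?_
      · simpa using hv _ (single_mem e)
      · unfold x0; split_ifs <;> norm_num
    · have h2 := hv _ (near_mem m)
      have h3 : a ⬝ᵥ (fun e => 1 + 2 / (m + 1 : ℝ) * (x0 m e - 1)) =
          β + 2 / (m + 1 : ℝ) * (a ⬝ᵥ x0 m - β) := by
        rw [← h1]
        simp only [dotProduct, ← sum_sub_distrib, mul_sum, ← sum_add_distrib]
        exact sum_congr rfl fun e _ => by ring
      rw [h3] at h2
      have h4 : (0 : ℝ) < 2 / (m + 1 : ℝ) := by positivity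
      nlinarith
  have h5 := (h hx).dotProduct_mulVec_nonneg fun i => if i = Fin.last m then -2 else 1
  simp only [dotProduct, Matrix.mulVec, X_x0, Fin.sum_univ_castSucc, Pi.star_apply, star_trivial,
    Fin.castSucc_ne_last, Fin.castSucc_inj, (Fin.castSucc_ne_last _).symm] at h5
  simp at h5
  have : (5 : ℝ) ≤ m := by exact_mod_cast (by omega : 5 ≤ m)
  linarith

end Pool.Agent.Results.MP_db83b6_pr.Spindle
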